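import Pool.Agent.helper68.GB.Spec
import Pool.Agent.helper38.BR.LLI

/-!
# Row gb:LIZ (MP_baa4d7_al): the weights are integral, and means of the weights against characters are integral
-/

set_option autoImplicit false

namespace Pool.Agent.GB

open Pool.Agent.helper58.DC Pool.Agent.DI Pool.Agent.GR Pool.Agent.OB Pool.Agent.DR Pool.Agent.FI Pool.Agent.FI3 Pool.Agent.FI4 Pool.Agent.LE Pool.Agent.BR

theorem LIZ (hLAZ : LAZ_stmt) (hSPC : SPC_stmt) (hEXA : Pool.Agent.BR.EXA_stmt) : LIZ_stmt := by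
  classical
  intro p M hS G _ _ D T x θ χ hZ l Q f hf
  obtain ⟨h1, h2⟩ := hLAZ p M hS G D T x θ χ hZ l Q f hf
  by_cases hsb : SB M (⊤ : Subgroup G) (rep M (cz Q) f) θ
  · obtain ⟨g, hg, hLam⟩ := h1 hsb
    have hmem : ∀ u ∈ Q, g * u * g⁻¹ ∈ D := by
      intro u hu
      refine hg ⟨u, hu, ?_⟩
      rfl
    have hTc : ∀ a ∈ T, ∀ b ∈ T, a * b = b * a := by
      intro a ha b hb
      exact (Subgroup.mem_centralizer_iff.1 (hZ.tcz hb)) a (hZ.tle ha)
    obtain ⟨C0, hC0⟩ : ∃ C0 : Subgroup G, C0 = TT M D θ ⊓ cz T := ⟨_, rfl⟩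
    have hC0T : C0 ≤ TT M D θ := by
      rw [hC0]
      exact inf_le_left
    rw [← hC0] at hLam
    -- membership under conjugation with `TT`
    have hTT : ∀ τ ∈ TT M D θ, ∀ v : G, τ * v * τ⁻¹ ∈ T ↔ v ∈ T := by
      intro τ hτ v
      have hn : τ ∈ nz D := hτ.1
      constructor
      · intro h
        have h3 := hZ.tnz τ⁻¹ ((nz D).inv_mem hn) _ h
        have h4 : τ⁻¹ * (τ * v * τ⁻¹) * τ⁻¹⁻¹ = v := by group
        rwa [h4] at h3
      · exact hZ.tnz τ hn v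
    have hlx0 : ∀ v : G, v ∉ T → lx T l v = 0 := by
      intro v hv
      unfold lx
      exact dif_neg hv
    have hinv : ∀ τ ∈ TT M D θ, ∀ c ∈ C0, ∀ v : G, lx T l (τ * c * v * (τ * c)⁻¹) = lx T l (τ * v * τ⁻¹) := by
      intro τ hτ c hc v
      rw [hC0] at hc
      obtain ⟨hc1, hc2⟩ := Subgroup.mem_inf.1 hc
      by_cases hv : v ∈ T
      · have h3 := (Subgroup.mem_centralizer_iff.1 hc2) v hv
        have h4 : τ * c * v * (τ * c)⁻¹ = τ * v * τ⁻¹ := by
          calc τ * c * v * (τ * c)⁻¹ = τ * (c * v) * c⁻¹ * τ⁻¹ := by group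
            _ = τ * (v * c) * c⁻¹ * τ⁻¹ := by rw [← h3]
            _ = _ := by group
        rw [h4]
      · rw [hlx0 _ (fun h => hv ((hTT τ hτ v).1 h)),
          hlx0 _ (fun h => hv ((hTT (τ * c) ((TT M D θ).mul_mem hτ hc1) v).1 h))]
    refine ⟨?_, ?_⟩
    · intro u hu
      rw [hLam u hu, mul_div_assoc]
      refine IntAt.mul hS (IntAt.natCast hS _) ?_
      refine LLI_mean hS hC0T (fun τ => lx T l (τ * (g * u * g⁻¹) * τ⁻¹))
        (fun τ _ => IntAt.of_isIntegral hS (LLI_int T l _)) ?_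
      intro τ hτ c hc
      exact hinv τ hτ c hc _
    · intro c hc c' hc' ψ hψ ψ' hψ'
      obtain ⟨Q0, hQ0⟩ : ∃ Q0 : Subgroup G, Q0 = (T.comap (MulAut.conj g).toMonoidHom) ⊓ Q := ⟨_, rfl⟩
      have hQ0m : ∀ u, u ∈ Q0 ↔ g * u * g⁻¹ ∈ T ∧ u ∈ Q := by
        intro u
        rw [hQ0]
        exact Subgroup.mem_inf
      have hQ0Q : Q0 ≤ Q := by
        rw [hQ0]
        exact inf_le_right
      have hQ0c : ∀ a ∈ Q0, ∀ b ∈ Q0, a * b = b * a := by
        intro a ha b hb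
        have h3 := hTc _ ((hQ0m a).1 ha).1 _ ((hQ0m b).1 hb).1
        have h4 : a * b = g⁻¹ * ((g * a * g⁻¹) * (g * b * g⁻¹)) * g := by group
        have h5 : b * a = g⁻¹ * ((g * b * g⁻¹) * (g * a * g⁻¹)) * g := by group
        rw [h4, h5, h3]
      have hczle : cz Q ≤ cz Q0 := Subgroup.centralizer_le hQ0Q
      -- the linear characters
      have hLC : ∀ τ ∈ TT M D θ, LC Q0 (fun u => lx T l (τ * (g * u * g⁻¹) * τ⁻¹)) := by
        intro τ hτ
        refine ⟨?_, ?_⟩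
        · have h3 : τ * (g * 1 * g⁻¹) * τ⁻¹ = 1 := by group
          change lx T l (τ * (g * 1 * g⁻¹) * τ⁻¹) = 1
          rw [h3]
          unfold lx
          rw [dif_pos T.one_mem]
          have h4 : (⟨1, T.one_mem⟩ : T) = 1 := rfl
          rw [h4, map_one, Units.val_one]
        · intro u hu v hv
          change lx T l (τ * (g * (u * v) * g⁻¹) * τ⁻¹) = lx T l (τ * (g * u * g⁻¹) * τ⁻¹) * lx T l (τ * (g * v * g⁻¹) * τ⁻¹)
          have h3 : τ * (g * (u * v) * g⁻¹) * τ⁻¹ = (τ * (g * u * g⁻¹) * τ⁻¹) * (τ * (g * v * g⁻¹) * τ⁻¹) := by group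
          rw [h3]
          have hu' := (hTT τ hτ _).2 ((hQ0m u).1 hu).1
          have hv' := (hTT τ hτ _).2 ((hQ0m v).1 hv).1
          unfold lx
          rw [dif_pos hu', dif_pos hv', dif_pos (T.mul_mem hu' hv')]
          have h4 : (⟨τ * (g * u * g⁻¹) * τ⁻¹ * (τ * (g * v * g⁻¹) * τ⁻¹), T.mul_mem hu' hv'⟩ : T) =
              ⟨τ * (g * u * g⁻¹) * τ⁻¹, hu'⟩ * ⟨τ * (g * v * g⁻¹) * τ⁻¹, hv'⟩ := rfl
          rw [h4, map_mul, Units.val_mul]
      -- the inner means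
      obtain ⟨J, hJ⟩ : ∃ J : G → ℂ, J = fun τ => (∑ᶠ u ∈ (Q0 : Set G),
          lx T l (τ * (g * u * g⁻¹) * τ⁻¹) * ψ (u * c) * ψ' ((c')⁻¹ * u⁻¹)) / Nat.card Q0 := ⟨_, rfl⟩
      have hJi : ∀ τ ∈ TT M D θ, IntAt M (J τ) := by
        intro τ hτ
        rw [hJ]
        refine hEXA p M hS G Q0 hQ0c (c')⁻¹ ((cz Q0).inv_mem (hczle hc')) ψ' hψ'
          (fun u => lx T l (τ * (g * u * g⁻¹) * τ⁻¹) * ψ (u * c)) ?_
        intro k hk
        refine IntAt.of_isIntegral hS ?_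
        have h3 := hSPC G Q0 (fun u => k u * lx T l (τ * (g * u * g⁻¹) * τ⁻¹)) ⟨by
          change k 1 * lx T l (τ * (g * 1 * g⁻¹) * τ⁻¹) = 1
          rw [hk.1, one_mul]
          exact (hLC τ hτ).1, fun u hu v hv => by
          have h5 := (hLC τ hτ).2 u hu v hv
          change k (u * v) * lx T l (τ * (g * (u * v) * g⁻¹) * τ⁻¹) = k u * lx T l (τ * (g * u * g⁻¹) * τ⁻¹) * (k v * lx T l (τ * (g * v * g⁻¹) * τ⁻¹))
          change lx T l (τ * (g * (u * v) * g⁻¹) * τ⁻¹) = lx T l (τ * (g * u * g⁻¹) * τ⁻¹) * lx T l (τ * (g * v * g⁻¹) * τ⁻¹) at h5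
          rw [h5, hk.2 u hu v hv]
          ring⟩ c (hczle hc) ψ hψ
        have h4 : ∑ᶠ u ∈ (Q0 : Set G), k u * (lx T l (τ * (g * u * g⁻¹) * τ⁻¹) * ψ (u * c)) =
            ∑ᶠ u ∈ (Q0 : Set G), k u * lx T l (τ * (g * u * g⁻¹) * τ⁻¹) * ψ (u * c) := by
          refine finsum_mem_congr rfl fun u _ => ?_
          ring
        rw [h4]
        exact h3
      have hJc : ∀ τ ∈ TT M D θ, ∀ d ∈ C0, J (τ * d) = J τ := by
        intro τ hτ d hd
        rw [hJ]
        change (∑ᶠ u ∈ (Q0 : Set G), lx T l (τ * d * (g * u * g⁻¹) * (τ * d)⁻¹) * ψ (u * c) * ψ' ((c')⁻¹ * u⁻¹)) / Nat.card Q0 =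
          (∑ᶠ u ∈ (Q0 : Set G), lx T l (τ * (g * u * g⁻¹) * τ⁻¹) * ψ (u * c) * ψ' ((c')⁻¹ * u⁻¹)) / Nat.card Q0
        congr 1
        refine finsum_mem_congr rfl fun u _ => ?_
        rw [hinv τ hτ d hd]
      have hM := LLI_mean hS hC0T J hJi hJc
      -- the index
      have hidx : Q0.relIndex Q ∣ T.relIndex D := by
        have e1 : Q0.relIndex Q = T.relIndex (cjS g Q) := by
          rw [hQ0, Subgroup.inf_relIndex_right, Subgroup.relIndex_comap]
        have e2 : (T.subgroupOf D).relIndex ((cjS g Q).subgroupOf D) = T.relIndex (cjS g Q) :=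
          Subgroup.relIndex_subgroupOf hg
        have hN : (T.subgroupOf D).Normal := by
          refine ⟨fun t ht d => ?_⟩
          rw [Subgroup.mem_subgroupOf] at ht ⊢
          have e3 : (d : G) * (t : G) = (t : G) * (d : G) := by
            have := (Subgroup.mem_centralizer_iff.1 (hZ.tcz ht)) (d : G) d.2
            exact this
          have e4 : ((d * t * d⁻¹ : D) : G) = t := by
            show (d : G) * (t : G) * (d : G)⁻¹ = t
            rw [e3]
            group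
          rw [e4]
          exact ht
        rw [e1, ← e2]
        exact Subgroup.relIndex_dvd_index_of_normal _ _
      obtain ⟨n, hn⟩ := hidx
      have hcard : Nat.card Q0 * Q0.relIndex Q = Nat.card Q := by
        have := Subgroup.relIndex_mul_relIndex (⊥ : Subgroup G) Q0 Q bot_le hQ0Q
        rwa [Subgroup.relIndex_bot_left, Subgroup.relIndex_bot_left] at this
      have hQpos : (Nat.card Q : ℂ) ≠ 0 := by
        exact_mod_cast Nat.card_pos.ne'
      have hQ0pos : (Nat.card Q0 : ℂ) ≠ 0 := by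
        exact_mod_cast Nat.card_pos.ne'
      have hipos : (Q0.relIndex Q : ℂ) ≠ 0 := by
        intro h0
        apply hQpos
        rw [← hcard, Nat.cast_mul, h0, mul_zero]
      have hC0pos : (Nat.card C0 : ℂ) ≠ 0 := by
        exact_mod_cast Nat.card_pos.ne'
      have key : (∑ᶠ u ∈ (Q : Set G), LamP p M D T θ l Q f u * ψ (u * c) * ψ' (u * c')⁻¹) / Nat.card Q =
          (n : ℂ) * ((∑ᶠ τ ∈ (TT M D θ : Set G), J τ) / Nat.card C0) := by
        have e1 : ∀ (S : Subgroup G) (f : G → ℂ), ∑ᶠ u ∈ (S : Set G), f u = ∑ u ∈ (Set.toFinite (S : Set G)).toFinset, f u :=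
          fun S f => finsum_mem_eq_finite_toFinset_sum _ _
        have e0 : ∀ (S : Subgroup G) (u : G), u ∈ (Set.toFinite (S : Set G)).toFinset ↔ u ∈ S := fun S u =>
          (Set.Finite.mem_toFinset _)
        -- restrict the sum over `Q` to `Q0`
        have e2 : ∀ τ ∈ TT M D θ, ∑ u ∈ (Set.toFinite (Q : Set G)).toFinset,
            lx T l (τ * (g * u * g⁻¹) * τ⁻¹) * ψ (u * c) * ψ' (u * c')⁻¹ = J τ * Nat.card Q0 := by
          intro τ hτ
          rw [hJ]
          change _ = (∑ᶠ u ∈ (Q0 : Set G), lx T l (τ * (g * u * g⁻¹) * τ⁻¹) * ψ (u * c) * ψ' ((c')⁻¹ * u⁻¹)) / Nat.card Q0 * Nat.card Q0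
          rw [div_mul_cancel₀ _ hQ0pos, e1]
          symm
          have e3 : (Set.toFinite (Q0 : Set G)).toFinset ⊆ (Set.toFinite (Q : Set G)).toFinset := by
            intro u hu
            rw [e0] at hu ⊢
            exact hQ0Q hu
          have e4 : ∑ u ∈ (Set.toFinite (Q0 : Set G)).toFinset, lx T l (τ * (g * u * g⁻¹) * τ⁻¹) * ψ (u * c) * ψ' ((c')⁻¹ * u⁻¹) =
              ∑ u ∈ (Set.toFinite (Q0 : Set G)).toFinset, lx T l (τ * (g * u * g⁻¹) * τ⁻¹) * ψ (u * c) * ψ' (u * c')⁻¹ := by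
            refine Finset.sum_congr rfl fun u _ => ?_
            rw [mul_inv_rev]
          rw [e4]
          refine Finset.sum_subset e3 fun u hu hu0 => ?_
          rw [e0] at hu hu0
          have e5 : g * u * g⁻¹ ∉ T := fun h => hu0 ((hQ0m u).2 ⟨h, hu⟩)
          rw [hlx0 _ (fun h => e5 ((hTT τ hτ _).1 h)), zero_mul, zero_mul]
        have e6 : ∑ᶠ u ∈ (Q : Set G), LamP p M D T θ l Q f u * ψ (u * c) * ψ' (u * c')⁻¹ =
            (T.relIndex D : ℂ) / Nat.card C0 * ∑ᶠ τ ∈ (TT M D θ : Set G), J τ * Nat.card Q0 := by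
          rw [e1 Q, e1 (TT M D θ)]
          have e7 : ∑ τ ∈ (Set.toFinite (TT M D θ : Set G)).toFinset, J τ * Nat.card Q0 =
              ∑ τ ∈ (Set.toFinite (TT M D θ : Set G)).toFinset, ∑ u ∈ (Set.toFinite (Q : Set G)).toFinset,
                lx T l (τ * (g * u * g⁻¹) * τ⁻¹) * ψ (u * c) * ψ' (u * c')⁻¹ := by
            refine Finset.sum_congr rfl fun τ hτ => ?_
            rw [e2 τ ((e0 _ _).1 hτ)]
          rw [e7, Finset.sum_comm, Finset.mul_sum]
          refine Finset.sum_congr rfl fun u hu => ?_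
          rw [hLam u ((e0 _ _).1 hu), e1 (TT M D θ), ← Finset.sum_mul, ← Finset.sum_mul]
          ring
        have e8 : ∑ᶠ τ ∈ (TT M D θ : Set G), J τ * (Nat.card Q0 : ℂ) = (∑ᶠ τ ∈ (TT M D θ : Set G), J τ) * Nat.card Q0 := by
          rw [e1, e1, Finset.sum_mul]
        rw [e6, e8, hn, ← hcard, Nat.cast_mul, Nat.cast_mul]
        field_simp
      rw [key]
      exact IntAt.mul hS (IntAt.natCast hS n) hM
  · have h3 := h2 hsb
    refine ⟨fun u hu => ?_, fun c _ c' _ ψ _ ψ' _ => ?_⟩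
    · rw [h3 u hu]
      exact IntAt.zero hS
    · have h4 : ∑ᶠ u ∈ (Q : Set G), LamP p M D T θ l Q f u * ψ (u * c) * ψ' (u * c')⁻¹ = 0 := by
        rw [← finsum_mem_zero (M := ℂ) (Q : Set G)]
        refine finsum_mem_congr rfl fun u hu => ?_
        rw [h3 u hu, zero_mul, zero_mul]
      rw [h4, zero_div]
      exact IntAt.zero hS

end Pool.Agent.GB
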